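import Pool.Agent.J4H26.KP.Q
import Pool.Agent.J4H26.PC.B6

/-!
Project KP, job (J10): long windows and means.
-/

set_option autoImplicit false

namespace Pool.Agent.J4H53.KP

open Finset Filter Real MeasureTheory
open Pool.Agent.J4H26.PC (Iv Ph VV Cent S_VLAW Ph_bd Ph_meas ii_bdd cov WW WW_eq sq_bd ceil_gap)
open Pool.Agent.J4H26.KP

/-- longer windows have smaller variance -/
theorem VV_mul {f : ℤ → ℝ} (hf : Iv f) (κ : ℝ) {a N : ℝ} (ha : 1 ≤ a) (hN : 0 < N) {B : ℕ} (hB : 1 ≤ B) :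
    VV f κ (B * a) N ≤ VV f κ a N + 8 * (B * a) / N := by
  have h := WW_eq hf κ ha hN hB
  have h0 : 0 ≤ WW f κ a B N := by
    unfold WW
    refine div_nonneg (intervalIntegral.integral_nonneg (by linarith) fun x _ => ?_) hN.le
    exact div_nonneg (sum_nonneg fun b _ => sq_nonneg _) (Nat.cast_nonneg _)
  rw [abs_le] at h
  linarith [h.1, h.2]

theorem prod_diff {ι : Type*} (s : Finset ι) (x y : ι → ℝ) (hx : ∀ i, |x i| ≤ 2) (hy : ∀ i, |y i| ≤ 1) :
    |∏ i ∈ s, x i - ∏ i ∈ s, y i| ≤ 2 ^ s.card * ∑ i ∈ s, |x i - y i| := by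
  classical
  induction s using Finset.induction_on with
  | empty => simp
  | insert a s ha ih =>
    rw [prod_insert ha, prod_insert ha, sum_insert ha, card_insert_of_notMem ha]
    have h1 : x a * ∏ i ∈ s, x i - y a * ∏ i ∈ s, y i =
        x a * (∏ i ∈ s, x i - ∏ i ∈ s, y i) + (x a - y a) * ∏ i ∈ s, y i := by ring
    have h2 : |∏ i ∈ s, y i| ≤ 1 := by
      rw [abs_prod]
      exact prod_le_one (fun i _ => abs_nonneg _) fun i _ => hy i
    have h3 : (1 : ℝ) ≤ 2 ^ s.card := one_le_pow₀ (by norm_num)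
    have h4 : 0 ≤ ∑ i ∈ s, |x i - y i| := sum_nonneg fun i _ => abs_nonneg _
    rw [h1]
    refine (abs_add_le _ _).trans ?_
    rw [abs_mul, abs_mul, pow_succ]
    have h5 : |x a| * |∏ i ∈ s, x i - ∏ i ∈ s, y i| ≤ 2 * (2 ^ s.card * ∑ i ∈ s, |x i - y i|) :=
      mul_le_mul (hx a) ih (abs_nonneg _) (by norm_num)
    have h6 : |x a - y a| * |∏ i ∈ s, y i| ≤ |x a - y a| * 1 :=
      mul_le_mul_of_nonneg_left h2 (abs_nonneg _)
    have h7 : |x a - y a| * 1 ≤ |x a - y a| * (2 ^ s.card * 2) :=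
      mul_le_mul_of_nonneg_left (by linarith) (abs_nonneg _)
    nlinarith

/-- the average of `f` and the average of `(f - μ) / 2` -/
theorem Ph_dev {f : ℤ → ℝ} {μ : ℝ} (hμ : |μ| ≤ 1) (x : ℝ) {a : ℝ} (ha : 1 ≤ a) :
    |Ph f x a - μ| ≤ 2 * |Ph (fun n => (f n - μ) / 2) x a| + 1 / a := by
  have ha0 : 0 < a := by linarith
  have e : Ph f x a - μ = 2 * Ph (fun n => (f n - μ) / 2) x a +
      μ * ((((⌈x + a⌉ - ⌈x⌉ : ℤ) : ℝ) - a) / a) := by
    unfold Ph
    rw [max_eq_left ha]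
    have h1 : ⌈x⌉ ≤ ⌈x + a⌉ := Int.ceil_le_ceil (by linarith)
    have h2 : ∑ n ∈ Finset.Ico ⌈x⌉ ⌈x + a⌉, (f n - μ) / 2 =
        (∑ n ∈ Finset.Ico ⌈x⌉ ⌈x + a⌉, f n - ((⌈x + a⌉ - ⌈x⌉ : ℤ) : ℝ) * μ) / 2 := by
      rw [← sum_div, sum_sub_distrib, sum_const, Int.card_Ico, nsmul_eq_mul]
      have h3 : (((⌈x + a⌉ - ⌈x⌉).toNat : ℕ) : ℤ) = ⌈x + a⌉ - ⌈x⌉ := Int.toNat_of_nonneg (by omega)
      have h4 : (((⌈x + a⌉ - ⌈x⌉).toNat : ℕ) : ℝ) = ((⌈x + a⌉ - ⌈x⌉ : ℤ) : ℝ) := by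
        exact_mod_cast congrArg (Int.cast : ℤ → ℝ) h3
      rw [h4]
    rw [h2]
    field_simp
    ring
  rw [e]
  refine (abs_add_le _ _).trans ?_
  have h5 : |2 * Ph (fun n => (f n - μ) / 2) x a| = 2 * |Ph (fun n => (f n - μ) / 2) x a| := by
    rw [abs_mul, abs_of_pos (by norm_num : (0 : ℝ) < 2)]
  have h6 : |(((⌈x + a⌉ - ⌈x⌉ : ℤ) : ℝ) - a)| ≤ 1 := by
    have g1 := Int.ceil_lt_add_one (x + a)
    have g2 := Int.le_ceil x
    have g3 := Int.ceil_lt_add_one x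
    have g4 := Int.le_ceil (x + a)
    push_cast
    rw [abs_le]
    constructor <;> linarith
  have h7 : |μ * ((((⌈x + a⌉ - ⌈x⌉ : ℤ) : ℝ) - a) / a)| ≤ 1 / a := by
    rw [abs_mul, abs_div, abs_of_pos ha0]
    calc |μ| * (|(((⌈x + a⌉ - ⌈x⌉ : ℤ) : ℝ) - a)| / a) ≤ 1 * (1 / a) := by
          refine mul_le_mul hμ ?_ (by positivity) (by norm_num)
          gcongr
      _ = 1 / a := one_mul _
  rw [h5]
  linarith

/-- real and integer ranges -/
theorem VV_floor {g : ℤ → ℝ} (hg : Iv g) {κ : ℝ} (hκ : |κ| ≤ 1) (a : ℝ) {X : ℝ} (hX : 1 ≤ X) :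
    VV g κ a X ≤ VV g κ a ⌊X⌋₊ + 12 / X := by
  have hX0 : 0 < X := by linarith
  obtain ⟨N, hN⟩ : ∃ N : ℝ, N = (⌊X⌋₊ : ℝ) := ⟨_, rfl⟩
  rw [← hN]
  have hN1 : N ≤ X := hN ▸ Nat.floor_le hX0.le
  have hN2 : X < N + 1 := hN ▸ Nat.lt_floor_add_one X
  have hN3 : 1 ≤ N := by
    rw [hN]
    exact_mod_cast Nat.le_floor (by exact_mod_cast hX)
  have hN0 : 0 < N := by linarith
  have hb : ∀ x, |(Ph g x a) ^ 2| ≤ 4 := by
    intro x
    have := sq_bd (Ph_bd hg x a)
    linarith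
  have hi : ∀ u v : ℝ, IntervalIntegrable (fun x => (Ph g x a) ^ 2) volume u v := fun u v =>
    ii_bdd ((Ph_meas g a).pow_const 2) hb u v
  have hsmall : ∀ u v : ℝ, |∫ x in u..v, (Ph g x a) ^ 2| ≤ 4 * |v - u| := by
    intro u v
    have := intervalIntegral.norm_integral_le_of_norm_le_const (a := u) (b := v) (C := 4)
      (f := fun x => (Ph g x a) ^ 2) (fun x _ => by rw [Real.norm_eq_abs]; exact hb x)
    rwa [Real.norm_eq_abs] at this
  have hk := abs_le.mp hκ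
  have e1 : (∫ x in (κ * X)..(κ * X + X), (Ph g x a) ^ 2) = (∫ x in (κ * X)..(κ * N), (Ph g x a) ^ 2) +
      (∫ x in (κ * N)..(κ * N + N), (Ph g x a) ^ 2) + (∫ x in (κ * N + N)..(κ * X + X), (Ph g x a) ^ 2) := by
    rw [intervalIntegral.integral_add_adjacent_intervals (hi _ _) (hi _ _),
      intervalIntegral.integral_add_adjacent_intervals (hi _ _) (hi _ _)]
  have d1 : |κ * N - κ * X| ≤ 1 := by
    rw [← mul_sub, abs_mul]
    have : |N - X| ≤ 1 := by
      rw [abs_le]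
      constructor <;> linarith
    calc |κ| * |N - X| ≤ 1 * 1 := mul_le_mul hκ this (abs_nonneg _) (by norm_num)
      _ = 1 := one_mul _
  have d2 : |κ * X + X - (κ * N + N)| ≤ 2 := by
    have : κ * X + X - (κ * N + N) = (κ * X - κ * N) + (X - N) := by ring
    rw [this]
    refine (abs_add_le _ _).trans ?_
    rw [abs_sub_comm] at d1
    have : |X - N| ≤ 1 := by
      rw [abs_le]
      constructor <;> linarith
    linarith
  have f1 := (le_abs_self _).trans (hsmall (κ * X) (κ * N))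
  have f2 := (le_abs_self _).trans (hsmall (κ * N + N) (κ * X + X))
  have hV : 0 ≤ ∫ x in (κ * N)..(κ * N + N), (Ph g x a) ^ 2 :=
    intervalIntegral.integral_nonneg (by linarith) fun x _ => sq_nonneg _
  unfold VV
  rw [e1]
  have f3 : (∫ x in (κ * X)..(κ * N), (Ph g x a) ^ 2) + (∫ x in (κ * N)..(κ * N + N), (Ph g x a) ^ 2) +
      (∫ x in (κ * N + N)..(κ * X + X), (Ph g x a) ^ 2) ≤ (∫ x in (κ * N)..(κ * N + N), (Ph g x a) ^ 2) + 12 := by
    linarith
  refine (div_le_div_of_nonneg_right f3 hX0.le).trans ?_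
  rw [add_div]
  have f4 : (∫ x in (κ * N)..(κ * N + N), (Ph g x a) ^ 2) / X ≤ (∫ x in (κ * N)..(κ * N + N), (Ph g x a) ^ 2) / N :=
    div_le_div_of_nonneg_left hV hN0 hN1
  linarith

/-- one function: mean deviation and variance -/
theorem dev_le {f : ℤ → ℝ} {μ κ : ℝ} (hf : Iv f) (hμ : |μ| ≤ 1) (hg : Iv (fun n => (f n - μ) / 2))
    {a X δ : ℝ} (ha : 1 ≤ a) (hX : 0 < X) (hδ : 0 < δ) :
    (∫ x in (κ * X)..(κ * X + X), |Ph f x a - μ|) / X ≤
      δ + VV (fun n => (f n - μ) / 2) κ a X / δ + 1 / a := by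
  have hm1 : Measurable (fun x => |Ph f x a - μ|) := ((Ph_meas f a).sub_const μ).norm
  have hb1 : ∀ x, |(|Ph f x a - μ|)| ≤ 3 := by
    intro x
    rw [abs_abs]
    refine (abs_sub _ _).trans ?_
    have := Ph_bd hf x a
    linarith
  have hi1 := ii_bdd hm1 hb1 (κ * X) (κ * X + X)
  have hm2 : Measurable (fun x => (Ph (fun n => (f n - μ) / 2) x a) ^ 2) := (Ph_meas _ a).pow_const 2
  have hb2 : ∀ x, |(Ph (fun n => (f n - μ) / 2) x a) ^ 2| ≤ 4 := by
    intro x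
    have := sq_bd (Ph_bd hg x a)
    linarith
  have hi2 := ii_bdd hm2 hb2 (κ * X) (κ * X + X)
  have hle : (∫ x in (κ * X)..(κ * X + X), |Ph f x a - μ|) ≤
      ∫ x in (κ * X)..(κ * X + X), ((δ + 1 / a) + (Ph (fun n => (f n - μ) / 2) x a) ^ 2 / δ) := by
    refine intervalIntegral.integral_mono_on (by linarith) hi1
      (intervalIntegrable_const.add (hi2.div_const δ)) fun x _ => ?_
    have h1 := Ph_dev (f := f) hμ x ha
    have h2 : 2 * |Ph (fun n => (f n - μ) / 2) x a| ≤ δ + (Ph (fun n => (f n - μ) / 2) x a) ^ 2 / δ := by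
      rw [← sub_nonneg]
      have e : δ + (Ph (fun n => (f n - μ) / 2) x a) ^ 2 / δ - 2 * |Ph (fun n => (f n - μ) / 2) x a| =
          (δ - |Ph (fun n => (f n - μ) / 2) x a|) ^ 2 / δ := by
        rw [← sq_abs (Ph (fun n => (f n - μ) / 2) x a)]
        field_simp
        ring
      rw [e]
      positivity
    linarith
  refine (div_le_div_of_nonneg_right hle hX.le).trans (le_of_eq ?_)
  rw [intervalIntegral.integral_add intervalIntegrable_const (hi2.div_const δ),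
    intervalIntegral.integral_const, intervalIntegral.integral_div, smul_eq_mul]
  unfold VV
  field_simp
  ring

theorem t_GMU : S_VLAW → S_GMU := by
  intro hV ψ hψ K ε hε
  obtain ⟨δ, hδ⟩ : ∃ δ : ℝ, δ = ε / (6 * 2 ^ K * (K + 1)) := ⟨_, rfl⟩
  have hδ0 : 0 < δ := by
    rw [hδ]
    positivity
  -- the arcsine
  have hcont : Continuous (fun η : ℝ => 1 - 2 / π * arcsin (√(1 - 2 * η))) := by
    have h1 : Continuous (fun η : ℝ => √(1 - 2 * η)) := by fun_prop
    have h2 := Real.continuous_arcsin.comp h1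
    exact continuous_const.sub (continuous_const.mul h2)
  have hlim : Tendsto (fun η : ℝ => 1 - 2 / π * arcsin (√(1 - 2 * η))) (nhds 0) (nhds 0) := by
    have h := hcont.tendsto 0
    have e : 1 - 2 / π * arcsin (√(1 - 2 * 0)) = 0 := by
      rw [mul_zero, sub_zero, Real.sqrt_one, Real.arcsin_one]
      field_simp
      norm_num
    simp only [e] at h
    exact h
  obtain ⟨η₁, hη₁, hsm⟩ := Metric.eventually_nhds_iff.mp (hlim.eventually (gt_mem_nhds (by positivity : (0 : ℝ) < δ ^ 2)))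
  refine ⟨min η₁ (1 / 4), lt_min hη₁ (by norm_num), fun η hη0 hη => ?_⟩
  have hη1 : η < η₁ := hη.trans_le (min_le_left _ _)
  have hη4 : η < 1 / 4 := hη.trans_le (min_le_right _ _)
  have harc : 1 - 2 / π * arcsin (√(1 - 2 * η)) < δ ^ 2 := hsm (by
    rw [Real.dist_eq, sub_zero, abs_of_pos hη0]
    exact hη1)
  have hθ0 : 0 < 1 - 2 * η := by linarith
  have hθ1 : 1 - 2 * η < 1 := by linarith
  obtain ⟨N₀, hN₀⟩ := eventually_atTop.mp (hV ψ hψ (1 - 2 * η) hθ0 hθ1 (δ ^ 2) (by positivity))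
  -- large X
  have hX1 : ∀ᶠ X : ℝ in atTop, 2 ≤ X ^ η := (tendsto_rpow_atTop hη0).eventually_ge_atTop 2
  have hX2 : ∀ᶠ X : ℝ in atTop, 32 / δ ^ 2 ≤ X ^ η := (tendsto_rpow_atTop hη0).eventually_ge_atTop _
  have hX3 : ∀ᶠ X : ℝ in atTop, 12 / δ ^ 2 ≤ X := eventually_ge_atTop _
  have hX4 : ∀ᶠ X : ℝ in atTop, 2 / δ ≤ X ^ (1 - η) := (tendsto_rpow_atTop (by linarith)).eventually_ge_atTop _
  have hX5 : ∀ᶠ X : ℝ in atTop, (2 : ℝ) ≤ X ^ (1 - η) := (tendsto_rpow_atTop (by linarith)).eventually_ge_atTop _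
  have hX6 : ∀ᶠ X : ℝ in atTop, (N₀ : ℝ) + 1 ≤ X := eventually_ge_atTop _
  obtain ⟨M, hM⟩ := eventually_atTop.mp (hX1.and (hX2.and (hX3.and (hX4.and (hX5.and hX6)))))
  have hL : ∀ᶠ L : ℕ in atTop, M ≤ (2 : ℝ) ^ L :=
    (tendsto_pow_atTop_atTop_of_one_lt (by norm_num : (1 : ℝ) < 2)).eventually_ge_atTop M
  filter_upwards [hL] with L hL F κ μ hF a X hLX ha1 ha2 D hD
  obtain ⟨g1, g2, g3, g4, g5, g6⟩ := hM X (hL.trans hLX)
  have hXone : 1 ≤ X := (one_le_pow₀ (by norm_num : (1 : ℝ) ≤ 2)).trans hLX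
  have hX0 : 0 < X := by linarith
  have ha0 : 1 ≤ a := by linarith
  -- one function
  have hone : ∀ i, (∫ x in (κ * (3 ^ D i * X))..(κ * (3 ^ D i * X) + 3 ^ D i * X), |Ph (F i) x (3 ^ D i * a) - μ i|) /
      (3 ^ D i * X) ≤ 6 * δ := by
    intro i
    obtain ⟨hIv, hμ, q, hC⟩ := hF i
    have h3 : (1 : ℝ) ≤ 3 ^ D i := one_le_pow₀ (by norm_num)
    obtain ⟨c, hc⟩ : ∃ c : ℝ, c = 3 ^ D i := ⟨_, rfl⟩
    rw [← hc] at h3 ⊢
    have hc0 : 0 < c := by linarith
    have hcX : X ≤ c * X := by nlinarith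
    have hca : a ≤ c * a := by nlinarith
    have hcX1 : 1 ≤ c * X := hXone.trans hcX
    have hcX0 : 0 < c * X := by linarith
    have hca1 : 1 ≤ c * a := ha0.trans hca
    refine (dev_le hIv hμ hC.iv hca1 hcX0 hδ0).trans ?_
    have hfl := VV_floor hC.iv hC.kp (c * a) hcX1
    obtain ⟨N, hN⟩ : ∃ N : ℕ, N = ⌊c * X⌋₊ := ⟨_, rfl⟩
    rw [← hN] at hfl
    have hNX : (N : ℝ) ≤ c * X := hN ▸ Nat.floor_le hcX0.le
    have hNX' : c * X < N + 1 := hN ▸ Nat.lt_floor_add_one _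
    have hN1 : 1 ≤ N := by
      rw [hN]
      exact Nat.le_floor (by exact_mod_cast hcX1)
    have hN1' : (1 : ℝ) ≤ N := by exact_mod_cast hN1
    have hN0' : (0 : ℝ) < N := by linarith
    have hNN : N₀ ≤ N := by
      have : (N₀ : ℝ) < N := by linarith
      exact_mod_cast this.le
    have hNhalf : c * X ≤ 2 * N := by linarith
    -- the short windows
    have hNθ1 : 1 ≤ (N : ℝ) ^ (1 - 2 * η) := Real.one_le_rpow hN1' hθ0.le
    have hNθ : (N : ℝ) ^ (1 - 2 * η) ≤ c * X ^ (1 - 2 * η) := by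
      calc (N : ℝ) ^ (1 - 2 * η) ≤ (c * X) ^ (1 - 2 * η) := Real.rpow_le_rpow hN0'.le hNX hθ0.le
        _ = c ^ (1 - 2 * η) * X ^ (1 - 2 * η) := Real.mul_rpow hc0.le hX0.le
        _ ≤ c ^ (1 : ℝ) * X ^ (1 - 2 * η) := by
            refine mul_le_mul_of_nonneg_right ?_ (by positivity)
            exact Real.rpow_le_rpow_of_exponent_le h3 (by linarith)
        _ = c * X ^ (1 - 2 * η) := by rw [Real.rpow_one]
    have hXsplit : X ^ (1 - η) = X ^ η * X ^ (1 - 2 * η) := by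
      rw [← Real.rpow_add hX0]
      congr 1
      ring
    have hXsplit2 : X = X ^ η * X ^ (1 - η) := by
      conv_lhs => rw [← Real.rpow_one X]
      rw [← Real.rpow_add hX0]
      congr 1
      ring
    have hXp : 0 < X ^ (1 - 2 * η) := by positivity
    have hbig : (N : ℝ) ^ (1 - 2 * η) ≤ c * a := by
      refine hNθ.trans ?_
      refine mul_le_mul_of_nonneg_left ?_ hc0.le
      rw [hXsplit] at ha1
      nlinarith
    obtain ⟨B, hB⟩ : ∃ B : ℕ, B = ⌊c * a / (N : ℝ) ^ (1 - 2 * η)⌋₊ := ⟨_, rfl⟩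
    have hNp : 0 < (N : ℝ) ^ (1 - 2 * η) := by linarith
    have hquot : 1 ≤ c * a / (N : ℝ) ^ (1 - 2 * η) := by
      rw [le_div_iff₀ hNp, one_mul]
      exact hbig
    have hB1 : 1 ≤ B := by
      rw [hB]
      exact Nat.le_floor (by exact_mod_cast hquot)
    have hB1' : (1 : ℝ) ≤ B := by exact_mod_cast hB1
    have hB0' : (0 : ℝ) < B := by linarith
    have hBle : (B : ℝ) ≤ c * a / (N : ℝ) ^ (1 - 2 * η) := hB ▸ Nat.floor_le (by linarith)
    have hBlt : c * a / (N : ℝ) ^ (1 - 2 * η) < B + 1 := hB ▸ Nat.lt_floor_add_one _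
    rw [le_div_iff₀ hNp] at hBle
    rw [div_lt_iff₀ hNp] at hBlt
    obtain ⟨b, hb⟩ : ∃ b : ℝ, b = c * a / B := ⟨_, rfl⟩
    have hBb : (B : ℝ) * b = c * a := by
      rw [hb]
      field_simp
    have hb1 : (N : ℝ) ^ (1 - 2 * η) ≤ b := by
      rw [hb, le_div_iff₀ hB0']
      linarith
    have hb2 : b ≤ 2 * (N : ℝ) ^ (1 - 2 * η) := by
      rw [hb, div_le_iff₀ hB0']
      nlinarith
    have hmul := VV_mul hC.iv κ (hNθ1.trans hb1) hN0' hB1
    rw [hBb] at hmul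
    have hlaw := hN₀ N hNN _ κ q hC b (by linarith) hb2
    have hlaw' := (abs_le.mp hlaw).2
    have harc0 : 0 ≤ 1 - 2 / π * arcsin (√(1 - 2 * η)) := by
      have h1 := Real.arcsin_le_pi_div_two (√(1 - 2 * η))
      have h2 : 2 / π * arcsin (√(1 - 2 * η)) ≤ 2 / π * (π / 2) :=
        mul_le_mul_of_nonneg_left h1 (by positivity)
      have h3 : 2 / π * (π / 2) = 1 := by
        field_simp
      linarith
    have hq : q * (1 - 2 / π * arcsin (√(1 - 2 * η))) ≤ δ ^ 2 := by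
      have := mul_le_mul_of_nonneg_right hC.q1 harc0
      linarith
    -- the errors
    have e1 : 8 * (c * a) / N ≤ δ ^ 2 := by
      rw [div_le_iff₀ hN0']
      rw [div_le_iff₀ (by positivity)] at g2
      have k1 : 8 * (c * a) ≤ 16 * (c * X ^ (1 - η)) := by nlinarith
      have k2 : 32 * X ^ (1 - η) ≤ δ ^ 2 * X := by
        have hp : 0 < X ^ (1 - η) := by positivity
        have k3 : 32 * X ^ (1 - η) ≤ (X ^ η * δ ^ 2) * X ^ (1 - η) :=
          mul_le_mul_of_nonneg_right g2 hp.le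
        have k4 : (X ^ η * δ ^ 2) * X ^ (1 - η) = δ ^ 2 * X := by
          conv_rhs => rw [hXsplit2]
          ring
        linarith
      have k5 : c * (32 * X ^ (1 - η)) ≤ c * (δ ^ 2 * X) := mul_le_mul_of_nonneg_left k2 hc0.le
      have k6 : δ ^ 2 * (c * X) ≤ δ ^ 2 * (2 * N) := mul_le_mul_of_nonneg_left hNhalf (by positivity)
      linarith
    have e2 : 12 / (c * X) ≤ δ ^ 2 := by
      rw [div_le_iff₀ hcX0]
      rw [div_le_iff₀ (by positivity)] at g3
      have : X * δ ^ 2 ≤ c * X * δ ^ 2 := mul_le_mul_of_nonneg_right hcX (by positivity)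
      linarith
    have e3 : 1 / (c * a) ≤ δ := by
      rw [div_le_iff₀ (by linarith)]
      rw [div_le_iff₀ hδ0] at g4
      have k1 : X ^ (1 - η) ≤ 2 * (c * a) := by linarith
      have k2 : X ^ (1 - η) * δ ≤ 2 * (c * a) * δ := mul_le_mul_of_nonneg_right k1 hδ0.le
      linarith
    have e4 : VV (fun n => (F i n - μ i) / 2) κ (c * a) (c * X) / δ ≤ 4 * δ := by
      rw [div_le_iff₀ hδ0]
      have : 4 * δ * δ = 4 * δ ^ 2 := by ring
      rw [this]
      linarith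
    linarith
  -- the product
  have hPb : ∀ i x, |Ph (F i) (3 ^ D i * x) (3 ^ D i * a)| ≤ 2 := fun i x => Ph_bd (hF i).1 _ _
  have hPm : ∀ i, Measurable (fun x => Ph (F i) (3 ^ D i * x) (3 ^ D i * a)) := fun i =>
    (Ph_meas (F i) _).comp (measurable_id.const_mul _)
  have hprodm : Measurable (fun x => ∏ i, Ph (F i) (3 ^ D i * x) (3 ^ D i * a)) :=
    Finset.measurable_prod _ fun i _ => hPm i
  have hprodb : ∀ x, |∏ i, Ph (F i) (3 ^ D i * x) (3 ^ D i * a)| ≤ 2 ^ K := by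
    intro x
    rw [abs_prod]
    refine (prod_le_prod (fun i _ => abs_nonneg _) fun i _ => hPb i x).trans (le_of_eq ?_)
    rw [prod_const, card_univ, Fintype.card_fin]
  have hprodi := ii_bdd hprodm hprodb (κ * X) (κ * X + X)
  have hdi : ∀ i, IntervalIntegrable (fun x => |Ph (F i) (3 ^ D i * x) (3 ^ D i * a) - μ i|) volume
      (κ * X) (κ * X + X) := by
    intro i
    refine ii_bdd (C := 3) ((hPm i).sub_const (μ i)).norm (fun x => ?_) _ _
    rw [abs_norm, Real.norm_eq_abs]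
    refine (abs_sub _ _).trans ?_
    have := hPb i x
    have := (hF i).2.1
    linarith
  have e5 : GGK F κ a X D - ∏ i, μ i =
      (∫ x in (κ * X)..(κ * X + X), ((∏ i, Ph (F i) (3 ^ D i * x) (3 ^ D i * a)) - ∏ i, μ i)) / X := by
    unfold GGK
    rw [intervalIntegral.integral_sub hprodi intervalIntegrable_const, intervalIntegral.integral_const,
      smul_eq_mul, sub_div]
    congr 1
    field_simp
    ring
  rw [e5, abs_div, abs_of_pos hX0]
  have e6 : |∫ x in (κ * X)..(κ * X + X), ((∏ i, Ph (F i) (3 ^ D i * x) (3 ^ D i * a)) - ∏ i, μ i)| ≤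
      ∫ x in (κ * X)..(κ * X + X), 2 ^ K * ∑ i, |Ph (F i) (3 ^ D i * x) (3 ^ D i * a) - μ i| := by
    refine (intervalIntegral.abs_integral_le_integral_abs (by linarith)).trans ?_
    refine intervalIntegral.integral_mono_on (by linarith)
      (hprodi.sub intervalIntegrable_const).abs ?_ fun x _ => ?_
    · refine IntervalIntegrable.const_mul ?_ _
      have : (fun x : ℝ => ∑ i, |Ph (F i) (3 ^ D i * x) (3 ^ D i * a) - μ i|) =
          ∑ i, (fun x : ℝ => |Ph (F i) (3 ^ D i * x) (3 ^ D i * a) - μ i|) := by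
        funext x
        simp
      rw [this]
      exact IntervalIntegrable.sum _ fun i _ => hdi i
    · have := prod_diff univ (fun i => Ph (F i) (3 ^ D i * x) (3 ^ D i * a)) μ (fun i => hPb i x)
        fun i => (hF i).2.1
      rwa [card_univ, Fintype.card_fin] at this
  refine (div_le_div_of_nonneg_right e6 hX0.le).trans ?_
  rw [intervalIntegral.integral_const_mul, intervalIntegral.integral_finsetSum fun i _ => hdi i,
    mul_div_assoc, sum_div]
  have e7 : ∀ i, (∫ x in (κ * X)..(κ * X + X), |Ph (F i) (3 ^ D i * x) (3 ^ D i * a) - μ i|) / X ≤ 6 * δ := by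
    intro i
    have h3 : (0 : ℝ) < 3 ^ D i := by positivity
    have h := cov (H := fun x => |Ph (F i) x (3 ^ D i * a) - μ i|) (κ := κ) h3 hX0
    rw [h]
    exact hone i
  have e8 := sum_le_sum fun i (_ : i ∈ (univ : Finset (Fin K))) => e7 i
  rw [sum_const, card_univ, Fintype.card_fin, nsmul_eq_mul] at e8
  have e9 : (2 : ℝ) ^ K * ∑ i, (∫ x in (κ * X)..(κ * X + X), |Ph (F i) (3 ^ D i * x) (3 ^ D i * a) - μ i|) / X ≤
      2 ^ K * (K * (6 * δ)) := mul_le_mul_of_nonneg_left e8 (by positivity)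
  refine e9.trans ?_
  have e10 : (2 : ℝ) ^ K * (K * (6 * δ)) ≤ 2 ^ K * ((K + 1) * (6 * δ)) := by
    refine mul_le_mul_of_nonneg_left ?_ (by positivity)
    exact mul_le_mul_of_nonneg_right (by linarith) (by positivity)
  refine e10.trans (le_of_eq ?_)
  rw [hδ]
  field_simp

end Pool.Agent.J4H53.KP
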