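import Pool.Agent.J4H26.KP.Lm

/-!
Project KP, job (N8): the expected values for the walks converge.
-/

set_option autoImplicit false

namespace Pool.Agent.J4H53.KP

open Finset Filter Real
open Pool.Agent.J4H39 (th0 tN tN_tendsto tN_mono th0_gt)
open Pool.Agent.J4H26.KT (iw cw sw cw_abs cw_const cw_succ isE_iw iw_single iw_add iw_smul iw_const sw_smul sw_sq)
open Pool.Agent.J4H26.AF (moves)
open Pool.Agent.J4H26.KP

variable {k : ℕ}

theorem cw_shift (f : (Fin k → ℤ) → ℝ) (c : ℤ) (s : ℕ) : ∀ z : Fin k → ℤ,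
    cw f s (fun i => c + z i) = cw (fun u => f (fun i => c + u i)) s z := by
  induction s with
  | zero => intro z; rfl
  | succ s ih =>
    intro z
    rw [cw_succ, cw_succ]
    have e : moves (fun i => c + z i) = moves z := by
      unfold moves
      apply filter_congr
      intro p _
      simp only [add_right_inj]
    rw [e]
    congr 1
    apply sum_congr rfl
    intro p _
    rw [← ih]
    congr 1
    funext i
    ring

theorem mZ_shift (m : Finset (Fin k) → ℝ) (c : ℤ) (z : Fin k → ℤ) : mZ m (fun i => c + z i) = mZ m z := by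
  unfold mZ
  congr 1
  funext i j
  simp only [add_right_inj]

theorem mZ_bd {m : Finset (Fin k) → ℝ} (hm : ∀ B, |m B| ≤ 1) (z : Fin k → ℤ) : |mZ m z| ≤ 1 := by
  unfold mZ mR
  rw [abs_prod]
  exact prod_le_one (fun _ _ => abs_nonneg _) fun B _ => hm B

theorem cw_bd {m : Finset (Fin k) → ℝ} (hm : ∀ B, |m B| ≤ 1) (t : ℕ) (z : Fin k → ℤ) : |cw (mZ m) t z| ≤ 1 := by
  have h := cw_abs (f := mZ m) (g := fun _ => 1) (mZ_bd hm) t z
  rwa [cw_const] at h

/-- the start which belongs to the point `x` -/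
noncomputable def st (s : ℕ) (x : Fin k → ℝ) (i : Fin k) : ℤ := ⌊(x i * √(s : ℝ) + s) / 2 + 1 / 2⌋

/-- the second factor as a function on `ℝ ^ K` -/
noncomputable def gg (m : Finset (Fin k) → ℝ) (t s : ℕ) (x : Fin k → ℝ) : ℝ := cw (mZ m) t (st s x)

theorem gg_int (m : Finset (Fin k) → ℝ) (t : ℕ) {s : ℕ} (hs : 1 ≤ s) (z : Fin k → ℤ) :
    gg m t s (fun i => (2 * (z i : ℝ) - s) / √(s : ℝ)) = cw (mZ m) t z := by
  unfold gg
  congr 1
  funext i
  unfold st
  have h0 : √(s : ℝ) ≠ 0 := by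
    have : (0 : ℝ) < s := by exact_mod_cast hs
    exact (Real.sqrt_pos.2 this).ne'
  rw [div_mul_cancel₀ _ h0, Int.floor_eq_iff]
  constructor <;> linarith

theorem gg_shift (m : Finset (Fin k) → ℝ) (t s : ℕ) (x : Fin k → ℝ) :
    gg m t s x = cw (mZ m) t (fun i => st s x i - (s / 2 : ℕ)) := by
  unfold gg
  have h := cw_shift (mZ m) ((s / 2 : ℕ) : ℤ) t (fun i => st s x i - (s / 2 : ℕ))
  have e : (fun u : Fin k → ℤ => mZ m (fun i => ((s / 2 : ℕ) : ℤ) + u i)) = mZ m := by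
    funext u
    exact mZ_shift m _ u
  rw [e] at h
  rw [← h]
  congr 1
  funext i
  ring

theorem st_near (s : ℕ) (x : Fin k → ℝ) (i : Fin k) :
    |((st s x i - (s / 2 : ℕ) : ℤ) : ℝ) - x i * √(s : ℝ) / 2| ≤ 1 := by
  unfold st
  have h1 := Int.floor_le ((x i * √(s : ℝ) + s) / 2 + 1 / 2)
  have h2 := Int.lt_floor_add_one ((x i * √(s : ℝ) + s) / 2 + 1 / 2)
  have h3 : (2 : ℝ) * ((s / 2 : ℕ) : ℝ) ≤ s := by
    have : 2 * (s / 2) ≤ s := Nat.mul_div_le s 2
    exact_mod_cast this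
  have h4 : (s : ℝ) ≤ 2 * ((s / 2 : ℕ) : ℝ) + 1 := by
    have : s ≤ 2 * (s / 2) + 1 := by omega
    exact_mod_cast this
  rw [Int.cast_sub, Int.cast_natCast, abs_le]
  constructor <;> linarith

theorem st_dif (s : ℕ) (x x' : Fin k → ℝ) (i : Fin k) :
    |(st s x i : ℝ) - st s x' i| ≤ |x i - x' i| * √(s : ℝ) / 2 + 1 := by
  unfold st
  have h1 := Int.floor_le ((x i * √(s : ℝ) + s) / 2 + 1 / 2)
  have h2 := Int.lt_floor_add_one ((x i * √(s : ℝ) + s) / 2 + 1 / 2)
  have h3 := Int.floor_le ((x' i * √(s : ℝ) + s) / 2 + 1 / 2)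
  have h4 := Int.lt_floor_add_one ((x' i * √(s : ℝ) + s) / 2 + 1 / 2)
  have h5 : 0 ≤ √(s : ℝ) := Real.sqrt_nonneg _
  have h6 : (x i - x' i) * √(s : ℝ) ≤ |x i - x' i| * √(s : ℝ) := mul_le_mul_of_nonneg_right (le_abs_self _) h5
  have h7 : -((x i - x' i) * √(s : ℝ)) ≤ |x i - x' i| * √(s : ℝ) := by
    rw [← neg_mul]
    exact mul_le_mul_of_nonneg_right (neg_le_abs _) h5
  rw [abs_le]
  constructor <;> nlinarith

/-- the second moments of independent walks -/
theorem iw_sq {s : ℕ} (hs : 1 ≤ s) (i : Fin k) :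
    iw (fun z : Fin k → ℤ => ((2 * (z i : ℝ) - s) / √(s : ℝ)) ^ 2) s (fun _ => 0) = 1 := by
  have hs0 : (0 : ℝ) < s := by exact_mod_cast hs
  have h := iw_single (fun u : ℤ => ((2 * (u : ℝ) - s) / √(s : ℝ)) ^ 2) s (fun _ : Fin k => 0) i
  rw [h]
  have e : (fun u : ℤ => ((2 * (u : ℝ) - s) / √(s : ℝ)) ^ 2) = fun u : ℤ => (1 / (s : ℝ)) * (2 * (u : ℝ) - s) ^ 2 := by
    funext u
    rw [div_pow, Real.sq_sqrt hs0.le]
    ring
  rw [e, sw_smul, sw_sq]
  field_simp
  ring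

/-- the ratio of the two lengths -/
theorem ratio {θ : ℝ} (h0 : 0 < θ) (h1 : θ < 1) :
    Tendsto (fun N : ℕ => tN (1 / th0) N - tN (θ / th0) N) atTop atTop ∧
    Tendsto (fun N : ℕ => √((tN (θ / th0) N : ℕ) : ℝ) / √((tN (1 / th0) N - tN (θ / th0) N : ℕ) : ℝ)) atTop
      (nhds √(θ / (1 - θ))) := by
  have hth : 0 < th0 := lt_trans (by norm_num) th0_gt
  have hlog : Tendsto (fun N : ℕ => Real.logb 2 (N : ℝ)) atTop atTop :=
    (Real.tendsto_logb_atTop (by norm_num)).comp tendsto_natCast_atTop_atTop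
  have a1 : Tendsto (fun N : ℕ => ((tN (θ / th0) N : ℕ) : ℝ) / Real.logb 2 N) atTop (nhds (θ / th0)) :=
    (tendsto_nat_floor_mul_div_atTop (by positivity)).comp hlog
  have a2 : Tendsto (fun N : ℕ => ((tN (1 / th0) N : ℕ) : ℝ) / Real.logb 2 N) atTop (nhds (1 / th0)) :=
    (tendsto_nat_floor_mul_div_atTop (by positivity)).comp hlog
  have a3 : Tendsto (fun N : ℕ => ((tN (1 / th0) N - tN (θ / th0) N : ℕ) : ℝ) / Real.logb 2 N) atTop
      (nhds (1 / th0 - θ / th0)) := by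
    refine (a2.sub a1).congr' ?_
    filter_upwards [eventually_ge_atTop 1] with N hN
    have h2 : tN (θ / th0) N ≤ tN (1 / th0) N := tN_mono (by gcongr) hN
    rw [Nat.cast_sub h2, sub_div]
  have hpos : 0 < 1 / th0 - θ / th0 := by
    rw [← sub_div]
    exact div_pos (by linarith) hth
  constructor
  · have h3 : Tendsto (fun N : ℕ => ((tN (1 / th0) N - tN (θ / th0) N : ℕ) : ℝ)) atTop atTop := by
      have h4 := a3.pos_mul_atTop hpos hlog
      refine h4.congr' ?_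
      filter_upwards [hlog.eventually_gt_atTop 0] with N hN
      rw [div_mul_cancel₀ _ hN.ne']
    exact tendsto_natCast_atTop_iff.1 h3
  · have h5 : Tendsto (fun N : ℕ => ((tN (θ / th0) N : ℕ) : ℝ) / ((tN (1 / th0) N - tN (θ / th0) N : ℕ) : ℝ)) atTop
        (nhds ((θ / th0) / (1 / th0 - θ / th0))) := by
      refine (a1.div a3 hpos.ne').congr' ?_
      filter_upwards [hlog.eventually_gt_atTop 0] with N hN
      simp only [Pi.div_apply]
      rw [div_div_div_cancel_right₀ hN.ne']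
    have h6 : (θ / th0) / (1 / th0 - θ / th0) = θ / (1 - θ) := by
      rw [← sub_div, div_div_div_cancel_right₀ hth.ne']
    rw [h6] at h5
    refine ((Real.continuous_sqrt.tendsto _).comp h5).congr fun N => ?_
    simp only [Function.comp]
    exact Real.sqrt_div (Nat.cast_nonneg _) _

theorem t_LIM : S_NEAR → S_CROSS → S_IWK → S_LIM := by
  intro hN hC hI K θ hθ0 hθ1 m hm
  obtain ⟨hT, hR⟩ := ratio hθ0 hθ1
  have hth : 0 < th0 := lt_trans (by norm_num) th0_gt
  have hS : Tendsto (tN (θ / th0)) atTop atTop := tN_tendsto (by positivity)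
  apply cauchySeq_tendsto_of_complete
  rw [Metric.cauchySeq_iff]
  intro ε hε
  obtain ⟨r, hr⟩ : ∃ r, r = √(θ / (1 - θ)) := ⟨_, rfl⟩
  have hr0 : 0 ≤ r := hr ▸ Real.sqrt_nonneg _
  rw [← hr] at hR
  have hK : (0 : ℝ) ≤ K := Nat.cast_nonneg _
  obtain ⟨B, hB0, hB⟩ : ∃ B : ℝ, 0 < B ∧ 2 * K / B ^ 2 ≤ ε / 4 := by
    refine ⟨√(8 * K / ε) + 1, by positivity, ?_⟩
    have h1 : 8 * K / ε ≤ (√(8 * K / ε) + 1) ^ 2 := by
      have := Real.sq_sqrt (show 0 ≤ 8 * K / ε by positivity)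
      have := Real.sqrt_nonneg (8 * K / ε)
      nlinarith
    rw [div_le_iff₀ (by positivity)]
    rw [div_le_iff₀ hε] at h1
    linarith
  have hε1 : 0 < ε / (16 * (K + 1)) := by positivity
  obtain ⟨β₁, hβ₁, t₁, hnear⟩ := hN K (ε / (16 * (K + 1))) hε1
  obtain ⟨ρ, hρ⟩ : ∃ ρ, ρ = r + 1 := ⟨_, rfl⟩
  have hρ1 : 1 ≤ ρ := by linarith
  have hρ0 : 0 < ρ := by linarith
  obtain ⟨s₀, hiwk⟩ := hI K (2 / (β₁ / ρ)) (ε / (16 * (K + 1))) (by positivity) hε1
  obtain ⟨β₃, hβ₃, t₃, hcross⟩ := hC K (B * ρ + 2) (ε / 4) (by positivity) (by positivity)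
  -- large `N`
  have hsqt : Tendsto (fun N : ℕ => √((tN (1 / th0) N - tN (θ / th0) N : ℕ) : ℝ)) atTop atTop :=
    Real.tendsto_sqrt_atTop.comp (tendsto_natCast_atTop_atTop.comp hT)
  have hev := (hS.eventually_ge_atTop (max s₀ 1)).and ((hT.eventually_ge_atTop (max t₁ t₃)).and
    ((hsqt.eventually_ge_atTop (max (max (2 / β₁) (8 / β₃)) 1)).and
      (Metric.tendsto_nhds.1 hR _ (show 0 < min 1 (β₃ / (4 * B)) by positivity))))
  obtain ⟨N₀, hN₀⟩ := eventually_atTop.1 hev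
  -- the properties of `gg`
  have hlip : ∀ N, N₀ ≤ N → ∀ x x' : Fin K → ℝ,
      |gg m (tN (1 / th0) N - tN (θ / th0) N) (tN (θ / th0) N) x -
        gg m (tN (1 / th0) N - tN (θ / th0) N) (tN (θ / th0) N) x'| ≤
      2 / (β₁ / ρ) * (∑ i, |x i - x' i|) + ε / (16 * (K + 1)) := by
    intro N hNN x x'
    obtain ⟨q1, q2, q3, q4⟩ := hN₀ N hNN
    generalize tN (1 / th0) N - tN (θ / th0) N = t at q2 q3 q4 ⊢
    generalize tN (θ / th0) N = s at q1 q4 ⊢
    have ht1 : t₁ ≤ t := (le_max_left _ _).trans q2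
    have hst : 2 / β₁ ≤ √(t : ℝ) := (le_max_left _ _).trans ((le_max_left _ _).trans q3)
    have hst1 : 1 ≤ √(t : ℝ) := (le_max_right _ _).trans q3
    have hst0 : 0 < √(t : ℝ) := by linarith
    rw [Real.dist_eq] at q4
    have q5 := (abs_lt.1 (q4.trans_le (min_le_left _ _))).2
    have q6 : √(s : ℝ) ≤ ρ * √(t : ℝ) := by
      rw [← div_le_iff₀ hst0]
      linarith
    have hsum0 : 0 ≤ ∑ i, |x i - x' i| := sum_nonneg fun _ _ => abs_nonneg _
    rcases le_or_gt (∑ i, |x i - x' i|) (β₁ / ρ) with hd | hd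
    · have h1 : ∀ i, |((st s x i : ℤ) : ℝ) - st s x' i| ≤ β₁ * √(t : ℝ) := by
        intro i
        have h2 : |x i - x' i| ≤ β₁ / ρ :=
          (single_le_sum (f := fun i => |x i - x' i|) (fun _ _ => abs_nonneg _) (mem_univ i)).trans hd
        have h3 := st_dif s x x' i
        have h4 : |x i - x' i| * √(s : ℝ) ≤ β₁ / ρ * (ρ * √(t : ℝ)) :=
          mul_le_mul h2 q6 (Real.sqrt_nonneg _) (by positivity)
        have h5 : β₁ / ρ * (ρ * √(t : ℝ)) = β₁ * √(t : ℝ) := by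
          field_simp
        have h6 : 2 ≤ β₁ * √(t : ℝ) := by
          rw [div_le_iff₀ hβ₁] at hst
          linarith
        linarith
      have h7 := hnear t ht1 m hm (st s x) (st s x') h1
      have h8 : 0 ≤ 2 / (β₁ / ρ) * (∑ i, |x i - x' i|) := by positivity
      unfold gg
      linarith
    · have h1 : 2 ≤ 2 / (β₁ / ρ) * (∑ i, |x i - x' i|) := by
        rw [div_mul_eq_mul_div, le_div_iff₀ (by positivity)]
        linarith
      have h2 : |gg m t s x - gg m t s x'| ≤ 2 := by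
        refine (abs_sub _ _).trans ?_
        have := cw_bd hm t (st s x)
        have := cw_bd hm t (st s x')
        unfold gg
        linarith
      linarith
  have hcr : ∀ N N', N₀ ≤ N → N₀ ≤ N' → ∀ x : Fin K → ℝ,
      |gg m (tN (1 / th0) N - tN (θ / th0) N) (tN (θ / th0) N) x -
        gg m (tN (1 / th0) N' - tN (θ / th0) N') (tN (θ / th0) N') x| ≤ ε / 4 + 2 / B ^ 2 * ∑ i, (x i) ^ 2 := by
    intro N N' hNN hNN' x
    obtain ⟨q1, q2, q3, q4⟩ := hN₀ N hNN
    obtain ⟨q1', q2', q3', q4'⟩ := hN₀ N' hNN'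
    generalize tN (1 / th0) N - tN (θ / th0) N = t at q2 q3 q4 ⊢
    generalize tN (θ / th0) N = s at q1 q4 ⊢
    generalize tN (1 / th0) N' - tN (θ / th0) N' = t' at q2' q3' q4' ⊢
    generalize tN (θ / th0) N' = s' at q1' q4' ⊢
    have hsum0 : 0 ≤ ∑ i, (x i) ^ 2 := sum_nonneg fun _ _ => sq_nonneg _
    rw [Real.dist_eq] at q4 q4'
    have hst1 : 1 ≤ √(t : ℝ) := (le_max_right _ _).trans q3
    have hst0 : 0 < √(t : ℝ) := by linarith
    have hst1' : 1 ≤ √(t' : ℝ) := (le_max_right _ _).trans q3'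
    have hst0' : 0 < √(t' : ℝ) := by linarith
    have q5 := (abs_lt.1 (q4.trans_le (min_le_left _ _))).2
    have q6 : √(s : ℝ) ≤ ρ * √(t : ℝ) := by
      rw [← div_le_iff₀ hst0]
      linarith
    by_cases hx : ∀ i, |x i| ≤ B
    · have h1 : ∀ i, |((st s x i - (s / 2 : ℕ) : ℤ) : ℝ)| ≤ (B * ρ + 2) * √(t : ℝ) := by
        intro i
        have h2 := st_near s x i
        have h3 : |x i * √(s : ℝ) / 2| ≤ B * (ρ * √(t : ℝ)) := by
          rw [abs_div, abs_mul, abs_of_nonneg (Real.sqrt_nonneg (s : ℝ)), abs_of_pos (by norm_num : (0 : ℝ) < 2)]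
          have h4 : |x i| * √(s : ℝ) ≤ B * (ρ * √(t : ℝ)) := mul_le_mul (hx i) q6 (Real.sqrt_nonneg _) hB0.le
          have h5 : 0 ≤ B * (ρ * √(t : ℝ)) := by positivity
          linarith
        have h6 : |((st s x i - (s / 2 : ℕ) : ℤ) : ℝ)| ≤
            |((st s x i - (s / 2 : ℕ) : ℤ) : ℝ) - x i * √(s : ℝ) / 2| + |x i * √(s : ℝ) / 2| := by
          have := abs_add_le (((st s x i - (s / 2 : ℕ) : ℤ) : ℝ) - x i * √(s : ℝ) / 2) (x i * √(s : ℝ) / 2)
          rwa [sub_add_cancel] at this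
        nlinarith
      have h8 : ∀ i, |((st s x i - (s / 2 : ℕ) : ℤ) : ℝ) / √(t : ℝ) - ((st s' x i - (s' / 2 : ℕ) : ℤ) : ℝ) / √(t' : ℝ)| ≤ β₃ := by
        intro i
        have h2 := st_near s x i
        have h2' := st_near s' x i
        generalize ((st s x i - (s / 2 : ℕ) : ℤ) : ℝ) = a at h2 ⊢
        generalize ((st s' x i - (s' / 2 : ℕ) : ℤ) : ℝ) = a' at h2' ⊢
        have e1 : a / √(t : ℝ) - a' / √(t' : ℝ) = (a - x i * √(s : ℝ) / 2) / √(t : ℝ) -
            (a' - x i * √(s' : ℝ) / 2) / √(t' : ℝ) + x i / 2 * ((√(s : ℝ) / √(t : ℝ) - r) - (√(s' : ℝ) / √(t' : ℝ) - r)) := by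
          field_simp
          ring
        have f1 : 1 / √(t : ℝ) ≤ β₃ / 8 := by
          have h3 : 8 / β₃ ≤ √(t : ℝ) := (le_max_right _ _).trans ((le_max_left _ _).trans q3)
          rw [div_le_iff₀ hβ₃] at h3
          rw [div_le_iff₀ hst0]
          linarith
        have f1' : 1 / √(t' : ℝ) ≤ β₃ / 8 := by
          have h3 : 8 / β₃ ≤ √(t' : ℝ) := (le_max_right _ _).trans ((le_max_left _ _).trans q3')
          rw [div_le_iff₀ hβ₃] at h3
          rw [div_le_iff₀ hst0']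
          linarith
        have f2 : |(a - x i * √(s : ℝ) / 2) / √(t : ℝ)| ≤ β₃ / 8 := by
          rw [abs_div, abs_of_pos hst0]
          exact (div_le_div_of_nonneg_right h2 hst0.le).trans f1
        have f2' : |(a' - x i * √(s' : ℝ) / 2) / √(t' : ℝ)| ≤ β₃ / 8 := by
          rw [abs_div, abs_of_pos hst0']
          exact (div_le_div_of_nonneg_right h2' hst0'.le).trans f1'
        have f3 : |x i / 2 * ((√(s : ℝ) / √(t : ℝ) - r) - (√(s' : ℝ) / √(t' : ℝ) - r))| ≤ β₃ / 4 := by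
          rw [abs_mul, abs_div, abs_of_pos (by norm_num : (0 : ℝ) < 2)]
          have g1 : |(√(s : ℝ) / √(t : ℝ) - r) - (√(s' : ℝ) / √(t' : ℝ) - r)| ≤ β₃ / (2 * B) := by
            refine (abs_sub _ _).trans ?_
            have := (q4.trans_le (min_le_right _ _)).le
            have := (q4'.trans_le (min_le_right _ _)).le
            have e2 : β₃ / (2 * B) = β₃ / (4 * B) + β₃ / (4 * B) := by
              field_simp
              ring
            linarith
          calc |x i| / 2 * |(√(s : ℝ) / √(t : ℝ) - r) - (√(s' : ℝ) / √(t' : ℝ) - r)| ≤ B / 2 * (β₃ / (2 * B)) := by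
                refine mul_le_mul ?_ g1 (abs_nonneg _) (by positivity)
                have := hx i
                linarith
            _ = β₃ / 4 := by
                field_simp
                ring
        rw [e1]
        refine (abs_add_le _ _).trans ?_
        have := abs_sub ((a - x i * √(s : ℝ) / 2) / √(t : ℝ)) ((a' - x i * √(s' : ℝ) / 2) / √(t' : ℝ))
        linarith
      have h9 := hcross t t' ((le_max_right _ _).trans q2) ((le_max_right _ _).trans q2') m hm _ _ h1 h8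
      rw [gg_shift, gg_shift]
      have : 0 ≤ 2 / B ^ 2 * ∑ i, (x i) ^ 2 := by positivity
      linarith
    · push Not at hx
      obtain ⟨i, hi⟩ := hx
      have h1 : B ^ 2 ≤ ∑ i, (x i) ^ 2 := by
        have h2 : (x i) ^ 2 ≤ ∑ i, (x i) ^ 2 :=
          single_le_sum (f := fun i => (x i) ^ 2) (fun _ _ => sq_nonneg _) (mem_univ i)
        have h3 : B ^ 2 ≤ (x i) ^ 2 := by
          rw [← sq_abs (x i)]
          exact pow_le_pow_left₀ hB0.le hi.le 2
        linarith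
      have h4 : 2 ≤ 2 / B ^ 2 * ∑ i, (x i) ^ 2 := by
        rw [div_mul_eq_mul_div, le_div_iff₀ (by positivity)]
        linarith
      have h5 : |gg m t s x - gg m t' s' x| ≤ 2 := by
        refine (abs_sub _ _).trans ?_
        have := cw_bd hm t (st s x)
        have := cw_bd hm t' (st s' x)
        unfold gg
        linarith
      linarith
  refine ⟨N₀, fun N hNN N' hNN' => ?_⟩
  rw [Real.dist_eq]
  obtain ⟨q1, -, -, -⟩ := hN₀ N hNN
  obtain ⟨q1', -, -, -⟩ := hN₀ N' hNN'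
  have hl := hlip N hNN
  have hc := hcr N N' hNN hNN'
  generalize tN (1 / th0) N - tN (θ / th0) N = t at hl hc ⊢
  generalize tN (θ / th0) N = s at q1 hl hc ⊢
  generalize tN (1 / th0) N' - tN (θ / th0) N' = t' at hc ⊢
  generalize tN (θ / th0) N' = s' at q1' hc ⊢
  have hs0 : s₀ ≤ s := (le_max_left _ _).trans q1
  have hs1 : 1 ≤ s := (le_max_right _ _).trans q1
  have hs0' : s₀ ≤ s' := (le_max_left _ _).trans q1'
  have hs1' : 1 ≤ s' := (le_max_right _ _).trans q1'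
  have e1 := hiwk s s' hs0 hs0' (gg m t s) (fun x => cw_bd hm t _) hl
  simp only [gg_int m t hs1] at e1
  have e2 : |iw (fun z : Fin K → ℤ => gg m t s (fun i => (2 * (z i : ℝ) - s') / √(s' : ℝ))) s' (fun _ => 0) -
      iw (fun z : Fin K → ℤ => gg m t' s' (fun i => (2 * (z i : ℝ) - s') / √(s' : ℝ))) s' (fun _ => 0)| ≤ ε / 4 + 2 * K / B ^ 2 := by
    have hE := isE_iw s' (fun _ : Fin K => (0 : ℤ))
    rw [← hE.sub]
    refine (hE.abs_le (g := fun z : Fin K → ℤ => ε / 4 + 2 / B ^ 2 * ∑ i, ((2 * (z i : ℝ) - s') / √(s' : ℝ)) ^ 2)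
      fun z => hc _).trans ?_
    rw [hE.add, hE.smul, hE.sum, hE.const]
    rw [sum_congr rfl fun i _ => iw_sq hs1' i, sum_const, card_univ, Fintype.card_fin, nsmul_eq_mul, mul_one]
    apply le_of_eq
    ring
  simp only [gg_int m t' hs1'] at e2
  have e3 : 4 * (K : ℝ) * (ε / (16 * (K + 1))) ≤ ε / 4 := by
    have : 4 * (K : ℝ) * (ε / (16 * (K + 1))) = ε / 4 * (K / (K + 1)) := by
      field_simp
      ring
    rw [this]
    have h1 : (K : ℝ) / (K + 1) ≤ 1 := by
      rw [div_le_one (by positivity)]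
      linarith
    nlinarith
  have e4 := abs_sub_le (iw (cw (mZ m) t) s (fun _ => 0))
    (iw (fun z : Fin K → ℤ => gg m t s (fun i => (2 * (z i : ℝ) - s') / √(s' : ℝ))) s' (fun _ => 0))
    (iw (cw (mZ m) t') s' (fun _ => 0))
  linarith

end Pool.Agent.J4H53.KP
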