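import Mathlib
import Pool.Agent.J4H26.KP.Supr

set_option autoImplicit false

/-! Project KP, piece (R0): `m` coalescing walks which start far apart do not meet, with a positive probability.  The
eigenfunctions `cos (π t / (2 L))` on disjoint intervals. -/

namespace Pool.Agent.J4H53.KP

open Finset Filter Real
open Pool.Agent.J4H26.KT (cw cw_succ cw_mono cw_const mpos)
open Pool.Agent.J4H26.AF (moves)
open Pool.Agent.J4H26.KP (injI S_APART)

/-- the eigenfunction -/
noncomputable def Hc (L t : ℝ) : ℝ := if |t| ≤ L then cos (π * t / (2 * L)) else 0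

theorem Hc_nonneg {L : ℝ} (hL : 0 < L) (t : ℝ) : 0 ≤ Hc L t := by
  unfold Hc
  split_ifs with h
  · obtain ⟨h1, h2⟩ := abs_le.1 h
    apply cos_nonneg_of_neg_pi_div_two_le_of_le
    · rw [neg_div', div_le_div_iff₀ (by norm_num) (by positivity)]
      nlinarith [pi_pos]
    · rw [div_le_div_iff₀ (by positivity) (by norm_num)]
      nlinarith [pi_pos]
  · exact le_rfl

theorem Hc_ge {L : ℝ} (hL : 1 ≤ L) {t : ℝ} (ht : |t| ≤ L + 1) : cos (π * t / (2 * L)) ≤ Hc L t := by
  unfold Hc
  split_ifs with h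
  · exact le_rfl
  · push Not at h
    have hL0 : 0 < L := by linarith
    have e : cos (π * t / (2 * L)) = cos (π * |t| / (2 * L)) := by
      rw [← cos_abs, abs_div, abs_mul, abs_of_pos pi_pos, abs_of_pos (by positivity : (0:ℝ) < 2 * L)]
    rw [e]
    apply cos_nonpos_of_pi_div_two_le_of_le
    · rw [div_le_div_iff₀ (by norm_num) (by positivity)]
      nlinarith [pi_pos]
    · rw [div_le_iff₀ (by positivity)]
      nlinarith [pi_pos]

theorem Hc_step {L : ℝ} (hL : 1 ≤ L) (t : ℝ) :
    cos (π / (2 * L)) * Hc L t ≤ (Hc L (t + 1) + Hc L (t - 1)) / 2 := by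
  have hL0 : 0 < L := by linarith
  by_cases h : |t| ≤ L
  · have h1 : cos (π * (t + 1) / (2 * L)) ≤ Hc L (t + 1) :=
      Hc_ge hL ((abs_add_le _ _).trans (by rw [abs_one]; linarith))
    have h2 : cos (π * (t - 1) / (2 * L)) ≤ Hc L (t - 1) :=
      Hc_ge hL ((abs_sub _ _).trans (by rw [abs_one]; linarith))
    have h3 : Hc L t = cos (π * t / (2 * L)) := if_pos h
    have e1 : π * (t + 1) / (2 * L) = π * t / (2 * L) + π / (2 * L) := by ring
    have e2 : π * (t - 1) / (2 * L) = π * t / (2 * L) - π / (2 * L) := by ring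
    rw [e1, cos_add] at h1
    rw [e2, cos_sub] at h2
    rw [h3]
    linarith
  · have h3 : Hc L t = 0 := if_neg h
    rw [h3, mul_zero]
    have := Hc_nonneg hL0 (t + 1)
    have := Hc_nonneg hL0 (t - 1)
    linarith

theorem injI_nonneg {m : ℕ} (u : Fin m → ℤ) : 0 ≤ injI u := by
  unfold injI
  split_ifs
  · exact zero_le_one
  · exact le_rfl

theorem cw_injI_nonneg {m : ℕ} (q : ℕ) (z : Fin m → ℤ) : 0 ≤ cw injI q z := by
  have h := cw_mono (f := fun _ => 0) (g := injI) (fun u => injI_nonneg u) q z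
  rwa [cw_const] at h

theorem moves_inj {m : ℕ} {z : Fin m → ℤ} (hz : Function.Injective z) : moves z = univ := by
  ext p
  simp only [moves, mem_filter, mem_univ, true_and, iff_true]
  intro i j h
  rw [hz h]

theorem main_ind {m : ℕ} {L : ℝ} (hL : 1 ≤ L) (x : Fin m → ℝ) (hx : ∀ i j, i ≠ j → 2 * L < |x i - x j|) (q : ℕ) :
    ∀ z : Fin m → ℤ, (∏ i, Hc L (2 * (z i : ℝ) + q - x i)) * cos (π / (2 * L)) ^ (q * m) ≤ cw injI q z := by
  have hL0 : 0 < L := by linarith
  have hc0 : 0 ≤ cos (π / (2 * L)) := by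
    apply cos_nonneg_of_neg_pi_div_two_le_of_le
    · have : 0 ≤ π / (2 * L) := by positivity
      have := pi_pos
      linarith
    · rw [div_le_div_iff₀ (by positivity) (by norm_num)]
      nlinarith [pi_pos]
  -- the product vanishes if two walks meet
  have hzero : ∀ (q : ℕ) (z : Fin m → ℤ), ¬ Function.Injective z → ∏ i, Hc L (2 * (z i : ℝ) + q - x i) = 0 := by
    intro q z hz
    unfold Function.Injective at hz
    push Not at hz
    obtain ⟨i, j, hij, hne⟩ := hz
    by_cases h1 : |2 * (z i : ℝ) + q - x i| ≤ L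
    · have h2 : ¬ |2 * (z j : ℝ) + q - x j| ≤ L := by
        intro h2
        have h3 := hx i j hne
        rw [hij] at h1
        have h4 : |x i - x j| ≤ |2 * (z j : ℝ) + q - x j| + |2 * (z j : ℝ) + q - x i| := by
          have := abs_sub (2 * (z j : ℝ) + q - x j) (2 * (z j : ℝ) + q - x i)
          have e : 2 * (z j : ℝ) + q - x j - (2 * (z j : ℝ) + q - x i) = x i - x j := by ring
          rwa [e] at this
        linarith
      exact prod_eq_zero (mem_univ j) (if_neg h2)
    · exact prod_eq_zero (mem_univ i) (if_neg h1)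
  induction q with
  | zero =>
    intro z
    rw [Nat.zero_mul, pow_zero, mul_one]
    by_cases hz : Function.Injective z
    · have h1 : cw injI 0 z = 1 := if_pos hz
      rw [h1]
      apply prod_le_one
      · intro i _
        exact Hc_nonneg hL0 _
      · intro i _
        unfold Hc
        split_ifs
        · exact cos_le_one _
        · exact zero_le_one
    · rw [hzero 0 z hz]
      exact cw_injI_nonneg 0 z
  | succ q ih =>
    intro z
    by_cases hz : Function.Injective z
    · rw [cw_succ, moves_inj hz, card_univ, Fintype.card_fun, Fintype.card_fin, Fintype.card_fin,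
        le_div_iff₀ (by positivity)]
      have h1 : ∀ p : Fin m → Fin 2, (∏ i, Hc L (2 * ((z i + ((p i : ℕ) : ℤ) : ℤ) : ℝ) + q - x i)) *
          cos (π / (2 * L)) ^ (q * m) ≤ cw injI q (fun i => z i + ((p i : ℕ) : ℤ)) := fun p => ih _
      refine le_trans ?_ (sum_le_sum fun p _ => h1 p)
      rw [← sum_mul]
      have h2 : (∑ p : Fin m → Fin 2, ∏ i, Hc L (2 * ((z i + ((p i : ℕ) : ℤ) : ℤ) : ℝ) + q - x i)) =
          ∏ i, ∑ a : Fin 2, Hc L (2 * ((z i + ((a : ℕ) : ℤ) : ℤ) : ℝ) + q - x i) := by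
        rw [Finset.prod_univ_sum]
        simp only [Fintype.piFinset_univ]
      rw [h2]
      have h3 : ∏ i, (2 * (cos (π / (2 * L)) * Hc L (2 * (z i : ℝ) + (q + 1 : ℕ) - x i))) ≤
          ∏ i, ∑ a : Fin 2, Hc L (2 * ((z i + ((a : ℕ) : ℤ) : ℤ) : ℝ) + q - x i) := by
        apply Finset.prod_le_prod
        · intro i _
          exact mul_nonneg (by norm_num) (mul_nonneg hc0 (Hc_nonneg hL0 _))
        · intro i _
          have h4 := Hc_step hL (2 * (z i : ℝ) + (q + 1 : ℕ) - x i)
          rw [Fin.sum_univ_two]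
          have e0 : 2 * ((z i + (((0 : Fin 2) : ℕ) : ℤ) : ℤ) : ℝ) + q - x i =
              2 * (z i : ℝ) + (q + 1 : ℕ) - x i - 1 := by
            push_cast
            simp
            ring
          have e1 : 2 * ((z i + (((1 : Fin 2) : ℕ) : ℤ) : ℤ) : ℝ) + q - x i =
              2 * (z i : ℝ) + (q + 1 : ℕ) - x i + 1 := by
            push_cast
            simp
            ring
          rw [e0, e1]
          linarith
      refine le_trans (le_of_eq ?_) (mul_le_mul_of_nonneg_right h3 (pow_nonneg hc0 _))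
      rw [prod_mul_distrib, prod_mul_distrib, prod_const, prod_const, card_univ, Fintype.card_fin,
        Nat.succ_mul, pow_add]
      push_cast
      ring
    · rw [hzero (q + 1) z hz, zero_mul]
      exact cw_injI_nonneg _ z

theorem t_APART : S_APART := by
  intro m g hg
  set a : ℝ := π ^ 2 / (2 * g ^ 2) with ha
  have ha0 : 0 < a := by positivity
  refine ⟨exp (-(2 * a)) ^ m, by positivity, ?_⟩
  filter_upwards [eventually_ge_atTop 1, eventually_ge_atTop ⌈4 / g ^ 2⌉₊, eventually_ge_atTop ⌈2 * a⌉₊] with k hk1 hk2 hk3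
  intro w hw
  have hk1' : (1 : ℝ) ≤ k := by exact_mod_cast hk1
  have hk2' : 4 / g ^ 2 ≤ (k : ℝ) := (Nat.le_ceil _).trans (by exact_mod_cast hk2)
  have hk3' : 2 * a ≤ (k : ℝ) := (Nat.le_ceil _).trans (by exact_mod_cast hk3)
  have hk0 : (0 : ℝ) < k := by linarith
  have hs : (0 : ℝ) < √k := sqrt_pos.2 hk0
  have hsq : √(k : ℝ) ^ 2 = k := sq_sqrt hk0.le
  set L : ℝ := g * √k / 2 with hL
  have hL1 : 1 ≤ L := by
    rw [div_le_iff₀ (by positivity)] at hk2'
    have h1 : 2 ^ 2 ≤ (g * √k) ^ 2 := by rw [mul_pow, hsq]; nlinarith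
    have h2 : 2 ≤ g * √k := (pow_le_pow_iff_left₀ (by norm_num) (by positivity) two_ne_zero).1 h1
    rw [hL]; linarith
  have hx : ∀ i j : Fin m, i ≠ j → 2 * L < |(2 * (w i : ℝ) + k) - (2 * (w j : ℝ) + k)| := by
    intro i j hij
    have h1 := hw i j hij
    have e : (2 * (w i : ℝ) + k) - (2 * (w j : ℝ) + k) = 2 * ((w i : ℝ) - w j) := by ring
    rw [e, abs_mul, abs_of_pos (by norm_num : (0:ℝ) < 2)]
    have : 0 < g * √k := by positivity
    rw [hL]; linarith
  have hmain := main_ind hL1 (fun i => 2 * (w i : ℝ) + k) hx k w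
  have hprod : ∏ i, Hc L (2 * (w i : ℝ) + k - (2 * (w i : ℝ) + k)) = 1 := by
    apply prod_eq_one
    intro i _
    rw [sub_self]
    unfold Hc
    rw [abs_zero, if_pos (by linarith), mul_zero, zero_div, cos_zero]
  rw [hprod, one_mul, pow_mul] at hmain
  refine le_trans ?_ hmain
  apply pow_le_pow_left₀ (exp_pos _).le
  -- the eigenvalue
  have h1 : 1 - (π / (2 * L)) ^ 2 / 2 ≤ cos (π / (2 * L)) := one_sub_sq_div_two_le_cos
  have h2 : (π / (2 * L)) ^ 2 / 2 = a / k := by
    rw [hL, ha]
    have e : 2 * (g * √(k : ℝ) / 2) = g * √k := by ring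
    rw [e, div_pow, mul_pow, hsq]
    field_simp
  rw [h2] at h1
  have h3 : a / k ≤ 1 / 2 := by
    rw [div_le_div_iff₀ hk0 (by norm_num)]
    linarith
  have h4 : 0 ≤ a / k := by positivity
  have h5 : exp (-(2 * (a / k))) ≤ 1 - a / k := by
    rw [exp_neg]
    have h6 : 1 + 2 * (a / k) ≤ exp (2 * (a / k)) := by
      have := add_one_le_exp (2 * (a / k))
      linarith
    rw [inv_le_comm₀ (exp_pos _) (by linarith)]
    refine le_trans ?_ h6
    rw [inv_le_iff_one_le_mul₀ (by linarith)]
    nlinarith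
  calc exp (-(2 * a)) = exp (-(2 * (a / k))) ^ k := by
        rw [← exp_nat_mul]
        congr 1
        field_simp
    _ ≤ cos (π / (2 * L)) ^ k := pow_le_pow_left₀ (exp_pos _).le (h5.trans h1) k

end Pool.Agent.J4H53.KP
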