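import Mathlib
import Pool.Agent.J4H39.KP.TL
import Pool.Agent.J4H18.KP.Qnt

set_option autoImplicit false

/-! Project KP, part TL, piece (T2): lower bound for the mass of an interval far out, from the normal limit. -/

namespace Pool.Agent.J4H53.KP

open Finset Filter Topology MeasureTheory ProbabilityTheory
open Pool.Agent.J4H39 (nu)
open Pool.Agent.J4H26.KP (le1 ge1)
open Pool.Agent.J4H18.KP (sw_nu nu_set)
open Pool.Agent.J4H39.KP (S_GMS)

theorem gauss_Icc (j : ℕ) : 2 * ((√ (2 * Real.pi))⁻¹ * Real.exp (-(4 * (j : ℝ) + 2) ^ 2 / 2)) ≤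
    (gaussianReal 0 1 (Set.Icc (4 * (j : ℝ)) (4 * (j : ℝ) + 2))).toReal := by
  rw [← ENNReal.ofReal_le_iff_le_toReal (measure_ne_top _ _), gaussianReal_apply 0 one_ne_zero]
  have h : ∫⁻ _x in Set.Icc (4 * (j : ℝ)) (4 * (j : ℝ) + 2),
      ENNReal.ofReal ((√ (2 * Real.pi))⁻¹ * Real.exp (-(4 * (j : ℝ) + 2) ^ 2 / 2)) ≤
      ∫⁻ x in Set.Icc (4 * (j : ℝ)) (4 * (j : ℝ) + 2), gaussianPDF 0 1 x := by
    apply setLIntegral_mono' measurableSet_Icc
    intro x hx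
    rw [gaussianPDF, gaussianPDFReal]
    apply ENNReal.ofReal_le_ofReal
    have hj : (0 : ℝ) ≤ j := Nat.cast_nonneg j
    have e : (√ (2 * Real.pi * ((1 : NNReal) : ℝ)))⁻¹ * Real.exp (-(x - 0) ^ 2 / (2 * ((1 : NNReal) : ℝ))) =
        (√ (2 * Real.pi))⁻¹ * Real.exp (-x ^ 2 / 2) := by
      rw [NNReal.coe_one, mul_one, mul_one, sub_zero]
    rw [e]
    apply mul_le_mul_of_nonneg_left _ (by positivity)
    rw [Real.exp_le_exp]
    have h1 : x ^ 2 ≤ (4 * (j : ℝ) + 2) ^ 2 := pow_le_pow_left₀ (by linarith [hx.1]) hx.2 2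
    linarith
  rw [setLIntegral_const, Real.volume_Icc, ← ENNReal.ofReal_mul (by positivity)] at h
  refine le_trans (le_of_eq ?_) h
  congr 1
  ring

/-- (T2) -/
theorem t_GMS : S_GMS := by
  refine ⟨(√ (2 * Real.pi))⁻¹ * Real.exp (-2), by positivity, ?_⟩
  intro j
  have hna : NullSingletonClass (gaussianReal 0 1) := nullSingletonClass_gaussianReal (by norm_num)
  have hlim : Tendsto (fun q : ℕ => (nu q (Set.Icc (4 * (j : ℝ)) (4 * (j : ℝ) + 2))).toReal) atTop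
      (𝓝 (gaussianReal 0 1 (Set.Icc (4 * (j : ℝ)) (4 * (j : ℝ) + 2))).toReal) := by
    apply nu_set
    rw [frontier_Icc (by linarith)]
    exact (Set.toFinite _).measure_zero _
  have hlt : (√ (2 * Real.pi))⁻¹ * Real.exp (-2) * Real.exp (-16 * (j : ℝ) ^ 2) <
      (gaussianReal 0 1 (Set.Icc (4 * (j : ℝ)) (4 * (j : ℝ) + 2))).toReal := by
    refine lt_of_lt_of_le ?_ (gauss_Icc j)
    have h1 : Real.exp (-2) * Real.exp (-16 * (j : ℝ) ^ 2) ≤ Real.exp (-(4 * (j : ℝ) + 2) ^ 2 / 2) := by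
      rw [← Real.exp_add, Real.exp_le_exp]
      have h2 : (j : ℝ) ≤ (j : ℝ) ^ 2 := by
        rcases Nat.eq_zero_or_pos j with h | h
        · rw [h]; norm_num
        · have : (1 : ℝ) ≤ j := by exact_mod_cast h
          nlinarith
      nlinarith
    have hp : 0 < (√ (2 * Real.pi))⁻¹ := by positivity
    have h3 := mul_le_mul_of_nonneg_left h1 hp.le
    have h4 : 0 < (√ (2 * Real.pi))⁻¹ * (Real.exp (-2) * Real.exp (-16 * (j : ℝ) ^ 2)) := by positivity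
    rw [mul_assoc]
    linarith
  filter_upwards [hlim.eventually (lt_mem_nhds hlt), eventually_ge_atTop 1] with s hs1 hs
  have hr : (0 : ℝ) < √ s := Real.sqrt_pos.2 (by exact_mod_cast hs)
  have h1 : Pool.Agent.J4H26.KT.sw (fun u : ℤ => ge1 ⌈(s : ℝ) / 2 + 2 * j * √ s⌉ u *
      le1 ⌊(s : ℝ) / 2 + (2 * j + 1) * √ s⌋ u) s 0 = (nu s (Set.Icc (4 * (j : ℝ)) (4 * (j : ℝ) + 2))).toReal := by
    apply sw_nu s _ measurableSet_Icc
    intro l
    unfold ge1 le1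
    have a1 : 4 * (j : ℝ) ≤ (2 * (l : ℝ) - s) / √ s ↔ ⌈(s : ℝ) / 2 + 2 * j * √ s⌉ ≤ (l : ℤ) := by
      rw [le_div_iff₀ hr, Int.ceil_le]
      push_cast
      constructor <;> intro h <;> linarith
    have a2 : (2 * (l : ℝ) - s) / √ s ≤ 4 * (j : ℝ) + 2 ↔ (l : ℤ) ≤ ⌊(s : ℝ) / 2 + (2 * j + 1) * √ s⌋ := by
      rw [div_le_iff₀ hr, Int.le_floor]
      push_cast
      constructor <;> intro h <;> linarith
    by_cases hl : ((2 * (l : ℝ) - s) / √ s) ∈ Set.Icc (4 * (j : ℝ)) (4 * (j : ℝ) + 2)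
    · rw [Set.indicator_of_mem hl, if_pos (a1.1 hl.1), if_pos (a2.1 hl.2), one_mul]
    · rw [Set.indicator_of_notMem hl]
      by_cases h2 : ⌈(s : ℝ) / 2 + 2 * j * √ s⌉ ≤ (l : ℤ)
      · have h3 : ¬ (l : ℤ) ≤ ⌊(s : ℝ) / 2 + (2 * j + 1) * √ s⌋ := fun h3 => hl ⟨a1.2 h2, a2.2 h3⟩
        rw [if_neg h3, mul_zero]
      · rw [if_neg h2, zero_mul]
  rw [h1]
  exact hs1.le

end Pool.Agent.J4H53.KP
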