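import Mathlib
import Pool.Agent.J4H39.KP.TL

set_option autoImplicit false

/-! Project KP, part TL, piece (T5): few clusters are not too unlikely. -/

namespace Pool.Agent.J4H53.KP

open Finset Filter Real
open Pool.Agent.J4H26.KT (iw cw cw_mono cw_add cw_smul cw_const iw_mono iw_add iw_smul iw_const)
open Pool.Agent.J4H39.KP (nc S_ENC S_TLO)

theorem t_TLO : S_ENC → S_TLO := by
  intro hE δ ρ hδ hδ1 hρ
  obtain ⟨C, hC, h⟩ := hE ρ hρ
  obtain ⟨l, hl⟩ : ∃ l : ℝ, l = -log δ := ⟨_, rfl⟩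
  have hl0 : 0 ≤ l := by
    have := log_nonpos hδ.le hδ1
    linarith
  have hδl : δ = exp (-l) := by rw [hl, neg_neg, exp_log hδ]
  refine ⟨(l + 1) * C, by positivity, ?_⟩
  intro K hK
  filter_upwards [h K hK] with k hk
  intro s hs hsρ
  have h1 := hk s hs hsρ
  obtain ⟨b, hb⟩ : ∃ b : ℝ, b = C * √(log K) := ⟨_, rfl⟩
  rw [← hb] at h1
  have hb0 : 0 ≤ b := by rw [hb]; positivity
  have hp : ∀ u : Fin K → ℤ, exp (-(l * b)) * (1 + l * b) + (-(exp (-(l * b)) * l)) * (nc u : ℝ) ≤ δ ^ nc u := by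
    intro u
    have e : δ ^ nc u = exp (-(l * b)) * exp (l * b - l * nc u) := by
      rw [← exp_add, hδl, ← exp_nat_mul]
      congr 1
      ring
    rw [e]
    have h2 := add_one_le_exp (l * b - l * nc u)
    have h3 := mul_le_mul_of_nonneg_left h2 (exp_pos (-(l * b))).le
    refine le_trans (le_of_eq ?_) h3
    ring
  have e1 : cw (fun u : Fin K → ℤ => exp (-(l * b)) * (1 + l * b) + (-(exp (-(l * b)) * l)) * (nc u : ℝ)) k =
      fun z => exp (-(l * b)) * (1 + l * b) + (-(exp (-(l * b)) * l)) * cw (fun u : Fin K → ℤ => (nc u : ℝ)) k z := by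
    funext z
    rw [cw_add, cw_const, cw_smul]
  have h4 : iw (cw (fun u : Fin K → ℤ => exp (-(l * b)) * (1 + l * b) + (-(exp (-(l * b)) * l)) * (nc u : ℝ)) k) s
      (fun _ => 0) ≤ iw (cw (fun u : Fin K → ℤ => δ ^ nc u) k) s (fun _ => 0) :=
    iw_mono (fun z => cw_mono hp k z) s _
  rw [e1, iw_add, iw_const, iw_smul] at h4
  refine le_trans ?_ h4
  have h5 : exp (-((l + 1) * C) * √(log K)) ≤ exp (-(l * b)) := by
    rw [exp_le_exp]
    have e : -((l + 1) * C) * √(log K) = -(l * b) - b := by rw [hb]; ring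
    rw [e]
    linarith
  refine h5.trans ?_
  have h6 := mul_le_mul_of_nonneg_left h1 (mul_nonneg (exp_pos (-(l * b))).le hl0)
  have h7 : exp (-(l * b)) * (1 + l * b) = exp (-(l * b)) + exp (-(l * b)) * l * b := by ring
  rw [h7]
  linarith

end Pool.Agent.J4H53.KP
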